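import Mathlib

set_option autoImplicit false

open Module

namespace Pool.Agent.Results.MP_e13ffb_co.NoHyperplaneSeparation

/-- a lattice point as a point of `ℝ^d` -/
def toR {d : ℕ} (y : Fin d → ℤ) : Fin d → ℝ := fun i => (y i : ℝ)

/-- `N(x) = {y ∈ ℤ^d : |x_i - y_i| < 1 for all i}` -/
def N {d : ℕ} (x : Fin d → ℝ) : Set (Fin d → ℤ) := {y | ∀ i, |x i - (y i : ℝ)| < 1}

/-- integrally convex sets of lattice points -/
def IntegrallyConvex {d : ℕ} (S : Set (Fin d → ℤ)) : Prop :=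
  ∀ x ∈ convexHull ℝ (toR '' S), x ∈ convexHull ℝ (toR '' (S ∩ N x))

/-- the `k`-parallelogram condition: no two sums of the same length `k' ∈ {1, ..., k}`, one with
all summands in `A` and one with all summands in `B`, agree -/
def Parallelogram {d : ℕ} (k : ℕ) (A B : Set (Fin d → ℤ)) : Prop :=
  ∀ k' : ℕ, 1 ≤ k' → k' ≤ k → ∀ a b : Fin k' → (Fin d → ℤ),
    (∀ i, a i ∈ A) → (∀ i, b i ∈ B) → ∑ i, a i ≠ ∑ i, b i

/-- `R` is a connected component of the set `X` -/
def IsComponent {d : ℕ} (R X : Set (Fin d → ℝ)) : Prop :=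
  ∃ x ∈ X, R = connectedComponentIn X x

/-- `P` separates `A` and `B` in `L`: the two connected components of `L \ P` can be labelled `Rp`,
`Rm` so that `Rp ∩ S ⊆ A` and `Rm ∩ S ⊆ B`. -/
def Separates {d : ℕ} (S A B : Set (Fin d → ℤ)) (L P : AffineSubspace ℝ (Fin d → ℝ)) : Prop :=
  ∃ Rp Rm : Set (Fin d → ℝ), Rp ≠ Rm ∧
    IsComponent Rp ((L : Set (Fin d → ℝ)) \ P) ∧ IsComponent Rm ((L : Set (Fin d → ℝ)) \ P) ∧
    (∀ y ∈ S, toR y ∈ Rp → y ∈ A) ∧ (∀ y ∈ S, toR y ∈ Rm → y ∈ B)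

/-- Condition H, with a flag `H k ≤ H (k+1) ≤ ... ≤ H d = ⊤` of nonempty affine subspaces,
`dim (H i) = i`. -/
def ConditionH {d : ℕ} (S A B : Set (Fin d → ℤ)) : Prop :=
  ∃ (k : ℕ) (H : ℕ → AffineSubspace ℝ (Fin d → ℝ)), k ≤ d ∧ H d = ⊤ ∧
    (∀ i, k ≤ i → i ≤ d → (H i : Set (Fin d → ℝ)).Nonempty ∧ finrank ℝ (H i).direction = i) ∧
    (∀ i, k ≤ i → i < d → H i ≤ H (i + 1)) ∧
    ((∀ y ∈ S, toR y ∈ H k → y ∈ A) ∨ (∀ y ∈ S, toR y ∈ H k → y ∈ B)) ∧
    (∀ i, k ≤ i → i < d → Separates S A B (H (i + 1)) (H i))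

/-! ### Separation gives a linear functional -/

lemma sep_functional {d : ℕ} {S A B : Set (Fin d → ℤ)} {L P : AffineSubspace ℝ (Fin d → ℝ)}
    (hPL : P ≤ L) (hne : (P : Set (Fin d → ℝ)).Nonempty)
    (hdim : finrank ℝ L.direction = finrank ℝ P.direction + 1)
    (hAS : A ⊆ S) (hBS : B ⊆ S) (hAB : Disjoint A B)
    (hsep : Separates S A B L P) :
    ∃ (g : (Fin d → ℝ) →ₗ[ℝ] ℝ) (p0 : Fin d → ℝ),
      (∀ x ∈ L, g (x - p0) = 0 → x ∈ P) ∧
      (∀ y ∈ A, toR y ∈ L → 0 ≤ g (toR y - p0)) ∧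
      (∀ y ∈ B, toR y ∈ L → g (toR y - p0) ≤ 0) := by
  obtain ⟨p0, hp0⟩ := hne
  have hp0L : p0 ∈ L := hPL hp0
  have hdir : P.direction ≤ L.direction := AffineSubspace.direction_le hPL
  -- a direction in `L` not in `P`
  obtain ⟨v, hvL, hvP⟩ : ∃ v ∈ L.direction, v ∉ P.direction := by
    by_contra hcon
    push Not at hcon
    have : L.direction ≤ P.direction := fun v hv => hcon v hv
    have := Submodule.finrank_mono this
    omega
  obtain ⟨g, hgv, hgP⟩ := Submodule.exists_dual_map_eq_bot_of_notMem hvP inferInstance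
  have hgP' : ∀ u ∈ P.direction, g u = 0 := by
    intro u hu
    have : g u ∈ P.direction.map g := ⟨u, hu, rfl⟩
    rw [hgP] at this
    simpa using this
  -- `L.direction = P.direction ⊔ span v`
  have hsup : P.direction ⊔ Submodule.span ℝ {v} = L.direction := by
    apply Submodule.eq_of_le_of_finrank_le
    · exact sup_le hdir (by simpa [Submodule.span_singleton_le_iff_mem] using hvL)
    · have hlt : P.direction < P.direction ⊔ Submodule.span ℝ {v} := by
        refine lt_of_le_of_ne le_sup_left ?_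
        intro h
        apply hvP
        rw [h]
        exact Submodule.mem_sup_right (Submodule.mem_span_singleton_self v)
      have := Submodule.finrank_lt_finrank_of_lt hlt
      omega
  have hker : ∀ w ∈ L.direction, g w = 0 → w ∈ P.direction := by
    intro w hw hgw
    rw [← hsup, Submodule.mem_sup] at hw
    obtain ⟨u, hu, z, hz, rfl⟩ := hw
    obtain ⟨t, rfl⟩ := Submodule.mem_span_singleton.1 hz
    rw [map_add, hgP' u hu, map_smul, zero_add, smul_eq_mul] at hgw
    have ht : t = 0 := by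
      rcases mul_eq_zero.1 hgw with h | h
      · exact h
      · exact absurd h hgv
    simpa [ht] using hu
  have hmem : ∀ x ∈ L, g (x - p0) = 0 → x ∈ P := by
    intro x hx hgx
    have h1 : x -ᵥ p0 ∈ L.direction := AffineSubspace.vsub_mem_direction hx hp0L
    have h2 : x -ᵥ p0 ∈ P.direction := hker _ h1 hgx
    exact (AffineSubspace.vsub_right_mem_direction_iff_mem hp0 x).1 h2
  have hmemP : ∀ x ∈ P, g (x - p0) = 0 := by
    intro x hx
    exact hgP' _ (AffineSubspace.vsub_mem_direction hx hp0)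
  obtain ⟨Rp, Rm, hne, ⟨xp, hxp, rfl⟩, ⟨xm, hxm, rfl⟩, hA, hB⟩ := hsep
  set X : Set (Fin d → ℝ) := (L : Set (Fin d → ℝ)) \ P with hX
  -- the two sides
  have hside : ∀ s : ℝ, (s = 1 ∨ s = -1) → ∀ x ∈ X, 0 < s * g (x - p0) →
      {z : Fin d → ℝ | z ∈ L ∧ 0 < s * g (z - p0)} ⊆ connectedComponentIn X x := by
    intro s hs x hx hsx
    have hconv : Convex ℝ {z : Fin d → ℝ | z ∈ L ∧ 0 < s * g (z - p0)} := by
      intro a ha b hb α β hα hβ hαβ
      refine ⟨L.convex ha.1 hb.1 hα hβ hαβ, ?_⟩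
      have h1 := ha.2
      have h2 := hb.2
      have hp : α • a + β • b - p0 = α • (a - p0) + β • (b - p0) := by
        rw [smul_sub, smul_sub]
        have : p0 = (α + β) • p0 := by rw [hαβ, one_smul]
        conv_lhs => rw [this]
        rw [add_smul]
        abel
      rw [hp, map_add, map_smul, map_smul, smul_eq_mul, smul_eq_mul]
      rcases eq_or_lt_of_le hα with h0 | h0
      · have : β = 1 := by linarith
        subst this
        rw [← h0]
        simpa using h2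
      · nlinarith [mul_pos h0 h1, mul_nonneg hβ h2.le]
    refine (hconv.isPreconnected).subset_connectedComponentIn ⟨hx.1, hsx⟩ ?_
    rintro z ⟨hzL, hz⟩
    refine ⟨hzL, fun hzP => ?_⟩
    rw [hmemP z hzP] at hz
    simp at hz
  have hnz : ∀ x ∈ X, g (x - p0) ≠ 0 := fun x hx h => hx.2 (hmem x hx.1 h)
  -- `xp` and `xm` lie on different sides
  have hopp : ∀ s : ℝ, (s = 1 ∨ s = -1) → 0 < s * g (xp - p0) → 0 < s * g (xm - p0) → False := by
    intro s hs h1 h2
    apply hne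
    have h3 := hside s hs xp hxp h1
    have h4 : xm ∈ connectedComponentIn X xp := h3 ⟨hxm.1, h2⟩
    exact connectedComponentIn_eq h4
  rcases lt_or_gt_of_ne (hnz xp hxp) with hlt | hgt
  · -- xp on the negative side
    have hm : 0 < g (xm - p0) := by
      rcases lt_or_gt_of_ne (hnz xm hxm) with h | h
      · exact (hopp (-1) (Or.inr rfl) (by linarith) (by linarith)).elim
      · exact h
    refine ⟨-g, p0, fun x hx h => hmem x hx (neg_eq_zero.1 h), ?_, ?_⟩
    · intro y hy hyL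
      by_contra hcon
      have hpos : 0 < g (toR y - p0) := by
        simpa using hcon
      have : toR y ∈ connectedComponentIn X xm :=
        hside 1 (Or.inl rfl) xm hxm (by linarith) ⟨hyL, by linarith⟩
      exact Set.disjoint_left.1 hAB hy (hB y (hAS hy) this)
    · intro y hy hyL
      by_contra hcon
      have hneg : g (toR y - p0) < 0 := by
        simpa using hcon
      have : toR y ∈ connectedComponentIn X xp :=
        hside (-1) (Or.inr rfl) xp hxp (by linarith) ⟨hyL, by linarith⟩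
      exact Set.disjoint_left.1 hAB (hA y (hBS hy) this) hy
  · have hm : g (xm - p0) < 0 := by
      rcases lt_or_gt_of_ne (hnz xm hxm) with h | h
      · exact h
      · exact (hopp 1 (Or.inl rfl) (by linarith) (by linarith)).elim
    refine ⟨g, p0, hmem, ?_, ?_⟩
    · intro y hy hyL
      by_contra hcon
      push Not at hcon
      have : toR y ∈ connectedComponentIn X xm :=
        hside (-1) (Or.inr rfl) xm hxm (by linarith) ⟨hyL, by linarith⟩
      exact Set.disjoint_left.1 hAB hy (hB y (hAS hy) this)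
    · intro y hy hyL
      by_contra hcon
      push Not at hcon
      have : toR y ∈ connectedComponentIn X xp :=
        hside 1 (Or.inl rfl) xp hxp (by linarith) ⟨hyL, by linarith⟩
      exact Set.disjoint_left.1 hAB (hA y (hBS hy) this) hy

/-! ### The example in `ℤ^4` -/

/-- the upper corner of the box -/
def n : Fin 4 → ℤ := ![3, 4, 4, 5]

/-- the box `{0,...,3} × {0,...,4} × {0,...,4} × {0,...,5}` -/
def S : Set (Fin 4 → ℤ) := {x | ∀ i, 0 ≤ x i ∧ x i ≤ n i}

/-- the linear form -/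
def ell (x : Fin 4 → ℤ) : ℤ := 20 * x 0 + 15 * x 1 + 13 * x 2 + 8 * x 3

def p : Fin 4 → ℤ := ![0, 1, 1, 4]
def q : Fin 4 → ℤ := ![3, 0, 0, 0]
def r : Fin 4 → ℤ := ![0, 0, 4, 1]
def s : Fin 4 → ℤ := ![0, 4, 0, 0]
def t : Fin 4 → ℤ := ![1, 0, 0, 5]

/-- the first class -/
def A : Set (Fin 4 → ℤ) := {x | x ∈ S ∧ (60 < ell x ∨ x = p ∨ x = q)}
/-- the second class -/
def B : Set (Fin 4 → ℤ) := {x | x ∈ S ∧ (ell x < 60 ∨ x = r ∨ x = s ∨ x = t)}

lemma vec_ext (x : Fin 4 → ℤ) (a b c e : ℤ) (h0 : x 0 = a) (h1 : x 1 = b) (h2 : x 2 = c)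
    (h3 : x 3 = e) : x = ![a, b, c, e] := by
  funext i
  fin_cases i <;> simp [h0, h1, h2, h3]

lemma on_plane (x : Fin 4 → ℤ) (hx : x ∈ S) (h : ell x = 60) :
    x = p ∨ x = q ∨ x = r ∨ x = s ∨ x = t := by
  have h0 := hx 0
  have h1 := hx 1
  have h2 := hx 2
  have h3 := hx 3
  simp only [n, Matrix.cons_val_zero, Matrix.cons_val_one, Matrix.cons_val] at h0 h1 h2 h3
  have key : (x 0 = 0 ∧ x 1 = 1 ∧ x 2 = 1 ∧ x 3 = 4) ∨ (x 0 = 3 ∧ x 1 = 0 ∧ x 2 = 0 ∧ x 3 = 0) ∨
      (x 0 = 0 ∧ x 1 = 0 ∧ x 2 = 4 ∧ x 3 = 1) ∨ (x 0 = 0 ∧ x 1 = 4 ∧ x 2 = 0 ∧ x 3 = 0) ∨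
      (x 0 = 1 ∧ x 1 = 0 ∧ x 2 = 0 ∧ x 3 = 5) := by
    unfold ell at h
    generalize x 0 = a at *
    generalize x 1 = b at *
    generalize x 2 = c at *
    generalize x 3 = e at *
    obtain ⟨ha0, ha1⟩ := h0
    obtain ⟨hb0, hb1⟩ := h1
    obtain ⟨hc0, hc1⟩ := h2
    interval_cases a <;> interval_cases b <;> interval_cases c <;> omega
  rcases key with ⟨a, b, c, e⟩ | ⟨a, b, c, e⟩ | ⟨a, b, c, e⟩ | ⟨a, b, c, e⟩ | ⟨a, b, c, e⟩
  · exact Or.inl (vec_ext x _ _ _ _ a b c e)
  · exact Or.inr (Or.inl (vec_ext x _ _ _ _ a b c e))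
  · exact Or.inr (Or.inr (Or.inl (vec_ext x _ _ _ _ a b c e)))
  · exact Or.inr (Or.inr (Or.inr (Or.inl (vec_ext x _ _ _ _ a b c e))))
  · exact Or.inr (Or.inr (Or.inr (Or.inr (vec_ext x _ _ _ _ a b c e))))

lemma ell_p : ell p = 60 := by decide
lemma ell_q : ell q = 60 := by decide
lemma ell_r : ell r = 60 := by decide
lemma ell_s : ell s = 60 := by decide
lemma ell_t : ell t = 60 := by decide
lemma p_mem : p ∈ S := by unfold S; intro i; fin_cases i <;> simp [p, n]
lemma q_mem : q ∈ S := by unfold S; intro i; fin_cases i <;> simp [q, n]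
lemma r_mem : r ∈ S := by unfold S; intro i; fin_cases i <;> simp [r, n]
lemma s_mem : s ∈ S := by unfold S; intro i; fin_cases i <;> simp [s, n]
lemma t_mem : t ∈ S := by unfold S; intro i; fin_cases i <;> simp [t, n]

lemma S_eq : S = A ∪ B := by
  ext x
  constructor
  · intro hx
    rcases lt_trichotomy (ell x) 60 with h | h | h
    · exact Or.inr ⟨hx, Or.inl h⟩
    · rcases on_plane x hx h with h | h | h | h | h
      · exact Or.inl ⟨hx, Or.inr (Or.inl h)⟩
      · exact Or.inl ⟨hx, Or.inr (Or.inr h)⟩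
      · exact Or.inr ⟨hx, Or.inr (Or.inl h)⟩
      · exact Or.inr ⟨hx, Or.inr (Or.inr (Or.inl h))⟩
      · exact Or.inr ⟨hx, Or.inr (Or.inr (Or.inr h))⟩
    · exact Or.inl ⟨hx, Or.inl h⟩
  · rintro (h | h)
    · exact h.1
    · exact h.1

lemma A_ge {x : Fin 4 → ℤ} (hx : x ∈ A) : 60 ≤ ell x := by
  rcases hx.2 with h | h | h
  · omega
  · rw [h, ell_p]
  · rw [h, ell_q]

lemma B_le {x : Fin 4 → ℤ} (hx : x ∈ B) : ell x ≤ 60 := by
  rcases hx.2 with h | h | h | h
  · omega
  · rw [h, ell_r]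
  · rw [h, ell_s]
  · rw [h, ell_t]

lemma A_eq {x : Fin 4 → ℤ} (hx : x ∈ A) (h : ell x = 60) : x = p ∨ x = q := by
  rcases hx.2 with h' | h' | h'
  · omega
  · exact Or.inl h'
  · exact Or.inr h'

lemma B_eq {x : Fin 4 → ℤ} (hx : x ∈ B) (h : ell x = 60) : x = r ∨ x = s ∨ x = t := by
  rcases hx.2 with h' | h'
  · omega
  · exact h'

lemma disj : Disjoint A B := by
  rw [Set.disjoint_left]
  intro x hA hB
  have h1 := A_ge hA
  have h2 := B_le hB
  have h : ell x = 60 := le_antisymm h2 h1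
  rcases A_eq hA h with rfl | rfl <;> rcases B_eq hB h with h' | h' | h' <;>
    · have := congrFun h' 3
      have := congrFun h' 1
      have := congrFun h' 0
      simp [p, q, r, s, t] at *

lemma p_A : p ∈ A := ⟨p_mem, Or.inr (Or.inl rfl)⟩
lemma q_A : q ∈ A := ⟨q_mem, Or.inr (Or.inr rfl)⟩
lemma r_B : r ∈ B := ⟨r_mem, Or.inr (Or.inl rfl)⟩
lemma s_B : s ∈ B := ⟨s_mem, Or.inr (Or.inr (Or.inl rfl))⟩
lemma t_B : t ∈ B := ⟨t_mem, Or.inr (Or.inr (Or.inr rfl))⟩

lemma ell_sum {m : ℕ} (a : Fin m → (Fin 4 → ℤ)) : ell (∑ i, a i) = ∑ i, ell (a i) := by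
  unfold ell
  simp only [Finset.sum_apply, Finset.mul_sum, Finset.sum_add_distrib]

/-- the 4-parallelogram condition holds -/
lemma par : Parallelogram 4 A B := by
  intro k hk1 hk4 a b ha hb hab
  have h1 : ∑ i, ell (a i) = ∑ i, ell (b i) := by
    rw [← ell_sum, ← ell_sum, hab]
  have h2 : ∑ i, (ell (a i) - 60) = ∑ i, (ell (b i) - 60) := by
    rw [Finset.sum_sub_distrib, Finset.sum_sub_distrib, h1]
  have h3 : 0 ≤ ∑ i, (ell (a i) - 60) :=
    Finset.sum_nonneg fun i _ => by have := A_ge (ha i); linarith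
  have h4 : ∑ i, (ell (b i) - 60) ≤ 0 :=
    Finset.sum_nonpos fun i _ => by have := B_le (hb i); linarith
  have h5 : ∑ i, (ell (a i) - 60) = 0 := le_antisymm (h2 ▸ h4) h3
  have h6 : ∑ i, (ell (b i) - 60) = 0 := by rw [← h2, h5]
  have ha' : ∀ i, ell (a i) = 60 := by
    intro i
    have := (Finset.sum_eq_zero_iff_of_nonneg
      (fun i _ => by have := A_ge (ha i); linarith)).1 h5 i (Finset.mem_univ i)
    linarith
  have hb' : ∀ i, ell (b i) = 60 := by
    intro i
    have := (Finset.sum_eq_zero_iff_of_nonpos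
      (fun i _ => by have := B_le (hb i); linarith)).1 h6 i (Finset.mem_univ i)
    linarith
  -- linear relations among the coordinates
  have hA0 : ∀ i, a i 0 + 3 * a i 1 = 3 := by
    intro i
    rcases A_eq (ha i) (ha' i) with h | h <;> rw [h] <;> simp [p, q]
  have hB0 : ∀ i, b i 1 + b i 2 + 4 * b i 0 = 4 := by
    intro i
    rcases B_eq (hb i) (hb' i) with h | h | h <;> rw [h] <;> simp [r, s, t]
  have hA2 : ∀ i, a i 2 = a i 1 := by
    intro i
    rcases A_eq (ha i) (ha' i) with h | h <;> rw [h] <;> simp [p, q]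
  have e0 : ∑ i, a i 0 = ∑ i, b i 0 := by simpa using congrFun hab 0
  have e1 : ∑ i, a i 1 = ∑ i, b i 1 := by simpa using congrFun hab 1
  have e2 : ∑ i, a i 2 = ∑ i, b i 2 := by simpa using congrFun hab 2
  have f0 : ∑ i, a i 0 + 3 * ∑ i, a i 1 = 3 * k := by
    rw [Finset.mul_sum, ← Finset.sum_add_distrib, Finset.sum_congr rfl (fun i _ => hA0 i)]
    simp [mul_comm]
  have f1 : ∑ i, b i 1 + ∑ i, b i 2 + 4 * ∑ i, b i 0 = 4 * k := by
    rw [Finset.mul_sum, ← Finset.sum_add_distrib, ← Finset.sum_add_distrib,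
      Finset.sum_congr rfl (fun i _ => hB0 i)]
    simp [mul_comm]
  have f2 : ∑ i, a i 2 = ∑ i, a i 1 := Finset.sum_congr rfl (fun i _ => hA2 i)
  omega

/-- `S` is integrally convex -/
lemma intconv : IntegrallyConvex S := by
  intro x hx
  have hbox : ∀ i, 0 ≤ x i ∧ x i ≤ (n i : ℝ) := by
    have hsub : convexHull ℝ (toR '' S) ⊆ {x : Fin 4 → ℝ | ∀ i, 0 ≤ x i ∧ x i ≤ (n i : ℝ)} := by
      apply convexHull_min
      · rintro _ ⟨y, hy, rfl⟩ i
        exact ⟨by unfold toR; exact_mod_cast (hy i).1, by unfold toR; exact_mod_cast (hy i).2⟩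
      · intro a ha b hb α β hα hβ hαβ i
        have h1 := ha i
        have h2 := hb i
        simp only [Pi.add_apply, Pi.smul_apply, smul_eq_mul]
        constructor
        · nlinarith [mul_nonneg hα h1.1, mul_nonneg hβ h2.1]
        · nlinarith [mul_le_mul_of_nonneg_left h1.2 hα, mul_le_mul_of_nonneg_left h2.2 hβ]
    exact hsub hx
  let T : Fin 4 → Set ℝ := fun i => {((⌊x i⌋ : ℤ) : ℝ), ((⌈x i⌉ : ℤ) : ℝ)}
  have h1 : x ∈ convexHull ℝ (Set.univ.pi T) := by
    rw [convexHull_pi]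
    intro i _
    have : x i ∈ segment ℝ ((⌊x i⌋ : ℤ) : ℝ) ((⌈x i⌉ : ℤ) : ℝ) := by
      rw [segment_eq_Icc (by exact_mod_cast Int.floor_le_ceil (x i))]
      exact ⟨Int.floor_le _, Int.le_ceil _⟩
    simpa only [T, convexHull_pair] using this
  refine convexHull_mono ?_ h1
  intro z hz
  have hz' : ∀ i, ∃ m : ℤ, z i = m ∧ (0 ≤ m ∧ m ≤ n i) ∧ |x i - (m : ℝ)| < 1 := by
    intro i
    have h2 := hz i (Set.mem_univ i)
    have h3 := hbox i
    rcases h2 with h | h
    · refine ⟨⌊x i⌋, h, ⟨Int.floor_nonneg.2 h3.1, ?_⟩, ?_⟩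
      · have : ((⌊x i⌋ : ℤ) : ℝ) ≤ (n i : ℝ) := (Int.floor_le _).trans h3.2
        exact_mod_cast this
      · rw [abs_lt]
        constructor
        · have := Int.floor_le (x i); linarith
        · have := Int.lt_floor_add_one (x i); linarith
    · refine ⟨⌈x i⌉, h, ⟨?_, Int.ceil_le.2 h3.2⟩, ?_⟩
      · have : (0 : ℝ) ≤ ((⌈x i⌉ : ℤ) : ℝ) := h3.1.trans (Int.le_ceil _)
        exact_mod_cast this
      · rw [abs_lt]
        constructor
        · have := Int.ceil_lt_add_one (x i); linarith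
        · have := Int.le_ceil (x i); linarith
  choose m hm hm' hm'' using hz'
  exact ⟨m, ⟨hm', hm''⟩, funext fun i => (hm i).symm⟩

lemma S_finite : S.Finite := by
  have : S = Set.Icc 0 n := by
    ext x
    simp only [S, Set.mem_ofPred_eq, Set.mem_Icc, Pi.le_def, Pi.zero_apply]
    exact ⟨fun h => ⟨fun i => (h i).1, fun i => (h i).2⟩, fun h i => ⟨h.1 i, h.2 i⟩⟩
  rw [this]
  exact Set.finite_Icc _ _

/-- Condition H fails -/
lemma not_H : ¬ ConditionH S A B := by
  rintro ⟨k, H, hk, hHd, hdim, hmono, hk', hsep⟩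
  have hAS : A ⊆ S := fun x hx => hx.1
  have hBS : B ⊆ S := fun x hx => hx.1
  have claim : ∀ j, j ≤ 4 - k → toR p ∈ H (4 - j) ∧ toR q ∈ H (4 - j) ∧ toR r ∈ H (4 - j) ∧
      toR s ∈ H (4 - j) ∧ toR t ∈ H (4 - j) := by
    intro j
    induction j with
    | zero =>
      intro _
      simp [hHd]
    | succ j ih =>
      intro hj
      obtain ⟨hp, hq, hr, hs, ht⟩ := ih (by omega)
      have hi : 4 - j = (4 - (j + 1)) + 1 := by omega
      set i := 4 - (j + 1) with hidef
      rw [hi] at hp hq hr hs ht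
      have hki : k ≤ i := by omega
      have hi4 : i < 4 := by omega
      have hd1 := (hdim i hki (by omega))
      have hd2 := (hdim (i + 1) (by omega) (by omega))
      obtain ⟨g, p0, hmem, hgA, hgB⟩ := sep_functional (hmono i hki hi4) hd1.1
        (by rw [hd1.2, hd2.2]) hAS hBS disj (hsep i hki hi4)
      have ep := hgA p p_A hp
      have eq := hgA q q_A hq
      have er := hgB r r_B hr
      have es := hgB s s_B hs
      have et := hgB t t_B ht
      have hrel : (4 : ℝ) • (toR p - p0) + (toR q - p0) =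
          (toR r - p0) + (toR s - p0) + (3 : ℝ) • (toR t - p0) := by
        funext i
        simp only [Pi.add_apply, Pi.smul_apply, Pi.sub_apply, smul_eq_mul, toR]
        fin_cases i <;> simp [p, q, r, s, t] <;> ring
      have hg := congrArg g hrel
      simp only [map_add, map_smul, smul_eq_mul] at hg
      exact ⟨hmem _ hp (by linarith), hmem _ hq (by linarith), hmem _ hr (by linarith),
        hmem _ hs (by linarith), hmem _ ht (by linarith)⟩
  obtain ⟨hp, -, hr, -, -⟩ := claim (4 - k) le_rfl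
  have h4 : 4 - (4 - k) = k := by omega
  rw [h4] at hp hr
  rcases hk' with h | h
  · exact Set.disjoint_left.1 disj (h r r_mem hr) r_B
  · exact Set.disjoint_left.1 disj p_A (h p p_mem hp)

/-- **Result.** The statement is false in dimension `4`: there is a finite integrally convex set
`S ⊂ ℤ⁴` (a box) with a partition into nonempty sets `A`, `B` that satisfies the `4`-parallelogram
condition but not Condition H. -/
theorem result : ∃ S A B : Set (Fin 4 → ℤ), S.Finite ∧ IntegrallyConvex S ∧ S = A ∪ B ∧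
    Disjoint A B ∧ A.Nonempty ∧ B.Nonempty ∧ Parallelogram 4 A B ∧ ¬ ConditionH S A B :=
  ⟨S, A, B, S_finite, intconv, S_eq, disj, ⟨p, p_A⟩, ⟨r, r_B⟩, par, not_H⟩

end Pool.Agent.Results.MP_e13ffb_co.NoHyperplaneSeparation
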